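import Pool.Agent.NH89.SACDef

/-! An arithmetically definable set of sentences that axiomatizes `Sigma^1_1-AC_0`. -/

set_option autoImplicit false

namespace Pool.Agent.NH89.SAC

open Function Pool.Agent.H986R3.SOA Pool.Agent.Helper180.ArithDef

/-! ### codes of terms and arithmetical formulas -/

def tR0 (n : ℕ) : Prop := (∃ i, n = pr 0 i) ∨ n = pr 1 0 ∨ n = pr 2 0

def tR2 (n a b : ℕ) : Prop := n = pr 3 (pr a b) ∨ n = pr 4 (pr a b)

theorem tmC_iff (n : ℕ) : (∃ t : Tm, t.code = n) ↔ Gen tR0 tR2 n := by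
  constructor
  · rintro ⟨t, rfl⟩
    induction t with
    | var i => exact Gen.base _ (Or.inl ⟨i, rfl⟩)
    | zero => exact Gen.base _ (Or.inr (Or.inl rfl))
    | one => exact Gen.base _ (Or.inr (Or.inr rfl))
    | add s t hs ht => exact Gen.step _ _ _ hs ht (Or.inl rfl)
    | mul s t hs ht => exact Gen.step _ _ _ hs ht (Or.inr rfl)
  · intro h
    induction h with
    | base n h =>
      rcases h with ⟨i, rfl⟩ | rfl | rfl
      · exact ⟨.var i, rfl⟩
      · exact ⟨.zero, rfl⟩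
      · exact ⟨.one, rfl⟩
    | step n a b _ _ hr iha ihb =>
      obtain ⟨s, rfl⟩ := iha
      obtain ⟨t, rfl⟩ := ihb
      rcases hr with rfl | rfl
      · exact ⟨.add s t, rfl⟩
      · exact ⟨.mul s t, rfl⟩

def fR0 (n : ℕ) : Prop := (∃ a b, (∃ t : Tm, t.code = a) ∧ (∃ t : Tm, t.code = b) ∧
    n = pr 0 (pr a b)) ∨ (∃ a b, (∃ t : Tm, t.code = a) ∧ (∃ t : Tm, t.code = b) ∧
    n = pr 1 (pr a b)) ∨ ∃ a i, (∃ t : Tm, t.code = a) ∧ n = pr 2 (pr a i)

def fR2 (n a b : ℕ) : Prop := n = pr 3 a ∨ n = pr 4 (pr a b) ∨ ∃ i, n = pr 5 (pr i a)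

/-- `n` is the code of an arithmetical formula. -/
def ArC (n : ℕ) : Prop := ∃ φ : Fm, φ.Arithmetical ∧ φ.code = n

theorem arC_iff (n : ℕ) : ArC n ↔ Gen fR0 fR2 n := by
  constructor
  · rintro ⟨φ, hφ, rfl⟩
    induction φ with
    | eq s t => exact Gen.base _ (Or.inl ⟨_, _, ⟨s, rfl⟩, ⟨t, rfl⟩, rfl⟩)
    | lt s t => exact Gen.base _ (Or.inr (Or.inl ⟨_, _, ⟨s, rfl⟩, ⟨t, rfl⟩, rfl⟩))
    | mem t i => exact Gen.base _ (Or.inr (Or.inr ⟨_, _, ⟨t, rfl⟩, rfl⟩))
    | neg φ ih => exact Gen.step _ _ _ (ih hφ) (ih hφ) (Or.inl rfl)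
    | and φ ψ ih1 ih2 => exact Gen.step _ _ _ (ih1 hφ.1) (ih2 hφ.2) (Or.inr (Or.inl rfl))
    | all i φ ih => exact Gen.step _ _ _ (ih hφ) (ih hφ) (Or.inr (Or.inr ⟨i, rfl⟩))
    | allS i φ ih => exact hφ.elim
  · intro h
    induction h with
    | base n h =>
      rcases h with ⟨a, b, ⟨s, rfl⟩, ⟨t, rfl⟩, rfl⟩ | ⟨a, b, ⟨s, rfl⟩, ⟨t, rfl⟩, rfl⟩ |
        ⟨a, i, ⟨t, rfl⟩, rfl⟩
      · exact ⟨.eq s t, trivial, rfl⟩
      · exact ⟨.lt s t, trivial, rfl⟩
      · exact ⟨.mem t i, trivial, rfl⟩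
    | step n a b _ _ hr iha ihb =>
      obtain ⟨φ, hφ, rfl⟩ := iha
      obtain ⟨ψ, hψ, rfl⟩ := ihb
      rcases hr with rfl | rfl | ⟨i, rfl⟩
      · exact ⟨.neg φ, hφ, rfl⟩
      · exact ⟨.and φ ψ, ⟨hφ, hψ⟩, rfl⟩
      · exact ⟨.all i φ, hφ, rfl⟩

/-! ### operations on codes -/

def cNeg (a : ℕ) : ℕ := pr 3 a
def cAnd (a b : ℕ) : ℕ := pr 4 (pr a b)
def cAll (i a : ℕ) : ℕ := pr 5 (pr i a)
def cAllS (i a : ℕ) : ℕ := pr 6 (pr i a)
def cImp (a b : ℕ) : ℕ := cNeg (cAnd a (cNeg b))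
def cIff (a b : ℕ) : ℕ := cAnd (cImp a b) (cImp b a)
def cExS (i a : ℕ) : ℕ := cNeg (cAllS i (cNeg a))
def cMem (t i : ℕ) : ℕ := pr 2 (pr t i)
def cPrT (s t : ℕ) : ℕ := pr 3 (pr (pr 4 (pr (pr 3 (pr s t)) (pr 3 (pr s t)))) s)

/-- The comprehension axiom for `φ`. -/
def compAx (i j : ℕ) (φ : Fm) : Fm := .exS j (.all i (.iff (.mem (.var i) j) φ))

def cComp (i j a : ℕ) : ℕ := cExS j (cAll i (cIff (cMem (pr 0 i) j) a))

theorem code_compAx (i j : ℕ) (φ : Fm) : (compAx i j φ).code = cComp i j φ.code := rfl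

def cChoice (n m Y Z a : ℕ) : ℕ :=
  cImp (cAll n (cExS Y a)) (cExS Z (cAll n (cExS Y (cAnd
    (cAll m (cIff (cMem (pr 0 m) Y) (cMem (cPrT (pr 0 m) (pr 0 n)) Z))) a))))

theorem code_choiceAx (n m Y Z : ℕ) (η : Fm) :
    (choiceAx n m Y Z η).code = cChoice n m Y Z η.code := rfl

section dc

variable {D : ((ℕ → ℕ) → Prop) → Prop} (h : DC D)
include h

theorem tneg {F : (ℕ → ℕ) → ℕ} (hF : DT D F) : DT D (fun w => cNeg (F w)) :=
  tpr h (tconst h 3) hF
theorem tand {F G : (ℕ → ℕ) → ℕ} (hF : DT D F) (hG : DT D G) :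
    DT D (fun w => cAnd (F w) (G w)) := tpr h (tconst h 4) (tpr h hF hG)
theorem tall {F G : (ℕ → ℕ) → ℕ} (hF : DT D F) (hG : DT D G) :
    DT D (fun w => cAll (F w) (G w)) := tpr h (tconst h 5) (tpr h hF hG)
theorem tallS {F G : (ℕ → ℕ) → ℕ} (hF : DT D F) (hG : DT D G) :
    DT D (fun w => cAllS (F w) (G w)) := tpr h (tconst h 6) (tpr h hF hG)
theorem timp {F G : (ℕ → ℕ) → ℕ} (hF : DT D F) (hG : DT D G) :
    DT D (fun w => cImp (F w) (G w)) := tneg h (tand h hF (tneg h hG))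
theorem tiff {F G : (ℕ → ℕ) → ℕ} (hF : DT D F) (hG : DT D G) :
    DT D (fun w => cIff (F w) (G w)) := tand h (timp h hF hG) (timp h hG hF)
theorem texS {F G : (ℕ → ℕ) → ℕ} (hF : DT D F) (hG : DT D G) :
    DT D (fun w => cExS (F w) (G w)) := tneg h (tallS h hF (tneg h hG))
theorem tmem {F G : (ℕ → ℕ) → ℕ} (hF : DT D F) (hG : DT D G) :
    DT D (fun w => cMem (F w) (G w)) := tpr h (tconst h 2) (tpr h hF hG)
theorem tprT {F G : (ℕ → ℕ) → ℕ} (hF : DT D F) (hG : DT D G) :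
    DT D (fun w => cPrT (F w) (G w)) := by
  have h3 := tpr h (tconst h 3) (tpr h hF hG)
  exact tpr h (tconst h 3) (tpr h (tpr h (tconst h 4) (tpr h h3 h3)) hF)
theorem tvarC {F : (ℕ → ℕ) → ℕ} (hF : DT D F) : DT D (fun w => pr 0 (F w)) :=
  tpr h (tconst h 0) hF

theorem tcomp {F G H : (ℕ → ℕ) → ℕ} (hF : DT D F) (hG : DT D G) (hH : DT D H) :
    DT D (fun w => cComp (F w) (G w) (H w)) :=
  texS h hG (tall h hF (tiff h (tmem h (tvarC h hF) hG) hH))

theorem tchoice {F1 F2 F3 F4 F5 : (ℕ → ℕ) → ℕ} (h1 : DT D F1) (h2 : DT D F2) (h3 : DT D F3)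
    (h4 : DT D F4) (h5 : DT D F5) :
    DT D (fun w => cChoice (F1 w) (F2 w) (F3 w) (F4 w) (F5 w)) :=
  timp h (tall h h1 (texS h h3 h5)) (texS h h4 (tall h h1 (texS h h3 (tand h
    (tall h h2 (tiff h (tmem h (tvarC h h2) h3) (tmem h (tprT h (tvarC h h2) (tvarC h h1)) h4)))
    h5))))

theorem d_tm : D (fun w => ∃ t : Tm, t.code = w 0) := by
  refine h.iff (fun w => (tmC_iff (w 0)).symm) (dgen h ?_ ?_)
  · refine h.or (h.ex' (S := fun i w => w 0 = pr 0 i) (h.eq (h.tvar 1) (tvarC h (h.tvar 0))))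
      (h.or (h.eq (h.tvar 0) (tconst h _)) (h.eq (h.tvar 0) (tconst h _)))
  · exact h.or (h.eq (h.tvar 0) (tpr h (tconst h 3) (tpr h (h.tvar 1) (h.tvar 2))))
      (h.eq (h.tvar 0) (tpr h (tconst h 4) (tpr h (h.tvar 1) (h.tvar 2))))

theorem d_ar : D (fun w => ArC (w 0)) := by
  refine h.iff (fun w => (arC_iff (w 0)).symm) (dgen h ?_ ?_)
  · refine h.or ?_ (h.or ?_ ?_)
    · refine h.ex' (S := fun a w => ∃ b, (∃ t : Tm, t.code = a) ∧ (∃ t : Tm, t.code = b) ∧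
        w 0 = pr 0 (pr a b)) (h.ex' (S := fun b w => (∃ t : Tm, t.code = w 0) ∧
        (∃ t : Tm, t.code = b) ∧ w 1 = pr 0 (pr (w 0) b)) ?_)
      exact h.and (h.app1 (R := fun a => ∃ t : Tm, t.code = a) (d_tm h) (h.tvar 1))
        (h.and (h.app1 (R := fun a => ∃ t : Tm, t.code = a) (d_tm h) (h.tvar 0))
        (h.eq (h.tvar 2) (tpr h (tconst h 0) (tpr h (h.tvar 1) (h.tvar 0)))))
    · refine h.ex' (S := fun a w => ∃ b, (∃ t : Tm, t.code = a) ∧ (∃ t : Tm, t.code = b) ∧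
        w 0 = pr 1 (pr a b)) (h.ex' (S := fun b w => (∃ t : Tm, t.code = w 0) ∧
        (∃ t : Tm, t.code = b) ∧ w 1 = pr 1 (pr (w 0) b)) ?_)
      exact h.and (h.app1 (R := fun a => ∃ t : Tm, t.code = a) (d_tm h) (h.tvar 1))
        (h.and (h.app1 (R := fun a => ∃ t : Tm, t.code = a) (d_tm h) (h.tvar 0))
        (h.eq (h.tvar 2) (tpr h (tconst h 1) (tpr h (h.tvar 1) (h.tvar 0)))))
    · refine h.ex' (S := fun a w => ∃ i, (∃ t : Tm, t.code = a) ∧
        w 0 = pr 2 (pr a i)) (h.ex' (S := fun i w => (∃ t : Tm, t.code = w 0) ∧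
        w 1 = pr 2 (pr (w 0) i)) ?_)
      exact h.and (h.app1 (R := fun a => ∃ t : Tm, t.code = a) (d_tm h) (h.tvar 1))
        (h.eq (h.tvar 2) (tpr h (tconst h 2) (tpr h (h.tvar 1) (h.tvar 0))))
  · exact h.or (h.eq (h.tvar 0) (tneg h (h.tvar 1)))
      (h.or (h.eq (h.tvar 0) (tand h (h.tvar 1) (h.tvar 2)))
      (h.ex' (S := fun i w => w 0 = pr 5 (pr i (w 1)))
        (h.eq (h.tvar 1) (tall h (h.tvar 0) (h.tvar 2)))))

end dc

/-! ### universal closures -/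

/-- `φ` closed under the universal quantifiers for all number and set variables below `N`. -/
def clo : ℕ → Fm → Fm
  | 0, φ => φ
  | N + 1, φ => .all N (.allS N (clo N φ))

def cClo (N a : ℕ) : ℕ := Nat.rec a (fun n ih => cAll n (cAllS n ih)) N

theorem code_clo (N : ℕ) (φ : Fm) : (clo N φ).code = cClo N φ.code := by
  induction N with
  | zero => rfl
  | succ N ih =>
    show cAll N (cAllS N (clo N φ).code) = cAll N (cAllS N (cClo N φ.code))
    rw [ih]

theorem primrec_pr : Primrec₂ pr := by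
  have h1 : Primrec₂ (fun a b : ℕ => (a + b) * (a + b)) :=
    Primrec.nat_mul.comp₂ Primrec.nat_add Primrec.nat_add
  exact Primrec.nat_add.comp₂ h1 Primrec.fst.to₂

theorem primrec_cClo : Primrec₂ (fun a N : ℕ => cClo N a) := by
  have h1 : Primrec₂ (fun (_ : ℕ) (p : ℕ × ℕ) => cAll p.1 (cAllS p.1 p.2)) := by
    have hp1 : Primrec₂ (fun (_ : ℕ) (p : ℕ × ℕ) => p.1) := (Primrec.fst.comp Primrec.snd).to₂
    have hp2 : Primrec₂ (fun (_ : ℕ) (p : ℕ × ℕ) => p.2) := (Primrec.snd.comp Primrec.snd).to₂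
    have hc : ∀ c : ℕ, Primrec₂ (fun (_ : ℕ) (_ : ℕ × ℕ) => c) := fun c => (Primrec.const c).to₂
    exact primrec_pr.comp₂ (hc 5) (primrec_pr.comp₂ hp1
      (primrec_pr.comp₂ (hc 6) (primrec_pr.comp₂ hp1 hp2)))
  exact Primrec.nat_rec (f := fun a : ℕ => a) Primrec.id h1

theorem d_clo {D : ((ℕ → ℕ) → Prop) → Prop} (h : DC D) :
    D (fun w => w 0 = cClo (w 1) (w 2)) := by
  have h1 : Primrec (fun n : ℕ => cClo (Nat.unpair n).2 (Nat.unpair n).1) :=
    primrec_cClo.comp (Primrec.fst.comp Primrec.unpair) (Primrec.snd.comp Primrec.unpair)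
  have h2 : Nat.Partrec (fun n => Part.some (cClo (Nat.unpair n).2 (Nat.unpair n).1)) :=
    Partrec.nat_iff.1 h1.to_comp
  refine h.iff (fun w => ?_) (h.app2 (R := fun x y => y ∈ (fun n => Part.some
    (cClo (Nat.unpair n).2 (Nat.unpair n).1) : ℕ →. ℕ) x) (h.partrec h2)
    (h.tpair (h.tvar 2) (h.tvar 1)) (h.tvar 0))
  simp

theorem holds_all (M : Model) (i : ℕ) (φ : Fm) : M.Holds (.all i φ) ↔ M.Holds φ := by
  constructor
  · intro h v V hV
    have := h v V hV (v i)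
    rwa [update_eq_self] at this
  · intro h v V hV a
    exact h _ V hV

theorem holds_allS (M : Model) (i : ℕ) (φ : Fm) : M.Holds (.allS i φ) ↔ M.Holds φ := by
  constructor
  · intro h v V hV
    have := h v V hV (V i) (hV i)
    rwa [update_eq_self] at this
  · intro h v V hV A hA
    refine h v _ fun j => ?_
    by_cases hj : j = i
    · subst hj; rw [update_self]; exact hA
    · rw [update_of_ne hj]; exact hV j

theorem holds_clo (M : Model) (N : ℕ) (φ : Fm) : M.Holds (clo N φ) ↔ M.Holds φ := by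
  induction N with
  | zero => rfl
  | succ N ih => rw [clo, holds_all, holds_allS, ih]

theorem clo_fvN (N : ℕ) (φ : Fm) : (clo N φ).fvN ⊆ {i | i ∈ φ.fvN ∧ N ≤ i} := by
  induction N with
  | zero => intro i hi; exact ⟨hi, Nat.zero_le _⟩
  | succ N ih =>
    rintro i ⟨hi, hiN⟩
    have := ih hi
    have h2 : i ≠ N := hiN
    exact ⟨this.1, by have := this.2; omega⟩

theorem clo_fvS (N : ℕ) (φ : Fm) : (clo N φ).fvS ⊆ {i | i ∈ φ.fvS ∧ N ≤ i} := by
  induction N with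
  | zero => intro i hi; exact ⟨hi, Nat.zero_le _⟩
  | succ N ih =>
    rintro i ⟨hi, hiN⟩
    have := ih hi
    have h2 : i ≠ N := hiN
    exact ⟨this.1, by have := this.2; omega⟩

theorem le_pr_left (a b : ℕ) : a ≤ pr a b := by unfold pr; omega

theorem le_pr_right (a b : ℕ) : b ≤ pr a b := by unfold pr; nlinarith

theorem fv_le_code (t : Tm) : ∀ i ∈ t.fv, i ≤ t.code := by
  induction t with
  | var j => intro i hi; rw [Set.mem_singleton_iff.mp hi]; exact le_pr_right _ _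
  | zero => intro i hi; exact hi.elim
  | one => intro i hi; exact hi.elim
  | add s t hs ht =>
    rintro i (hi | hi)
    · exact (hs i hi).trans ((le_pr_left _ _).trans (le_pr_right _ _))
    · exact (ht i hi).trans ((le_pr_right _ _).trans (le_pr_right _ _))
  | mul s t hs ht =>
    rintro i (hi | hi)
    · exact (hs i hi).trans ((le_pr_left _ _).trans (le_pr_right _ _))
    · exact (ht i hi).trans ((le_pr_right _ _).trans (le_pr_right _ _))

theorem fvN_le_code (φ : Fm) : ∀ i ∈ φ.fvN, i ≤ φ.code := by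
  induction φ with
  | eq s t =>
    rintro i (hi | hi)
    · exact (fv_le_code s i hi).trans ((le_pr_left _ _).trans (le_pr_right _ _))
    · exact (fv_le_code t i hi).trans ((le_pr_right _ _).trans (le_pr_right _ _))
  | lt s t =>
    rintro i (hi | hi)
    · exact (fv_le_code s i hi).trans ((le_pr_left _ _).trans (le_pr_right _ _))
    · exact (fv_le_code t i hi).trans ((le_pr_right _ _).trans (le_pr_right _ _))
  | mem t j =>
    intro i hi
    exact (fv_le_code t i hi).trans ((le_pr_left _ _).trans (le_pr_right _ _))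
  | neg φ ih => intro i hi; exact (ih i hi).trans (le_pr_right _ _)
  | and φ ψ ih1 ih2 =>
    rintro i (hi | hi)
    · exact (ih1 i hi).trans ((le_pr_left _ _).trans (le_pr_right _ _))
    · exact (ih2 i hi).trans ((le_pr_right _ _).trans (le_pr_right _ _))
  | all j φ ih => intro i hi; exact (ih i hi.1).trans ((le_pr_right _ _).trans (le_pr_right _ _))
  | allS j φ ih => intro i hi; exact (ih i hi).trans ((le_pr_right _ _).trans (le_pr_right _ _))

theorem fvS_le_code (φ : Fm) : ∀ i ∈ φ.fvS, i ≤ φ.code := by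
  induction φ with
  | eq s t => intro i hi; exact hi.elim
  | lt s t => intro i hi; exact hi.elim
  | mem t j =>
    intro i hi
    rw [Set.mem_singleton_iff.mp hi]
    exact (le_pr_right _ _).trans (le_pr_right _ _)
  | neg φ ih => intro i hi; exact (ih i hi).trans (le_pr_right _ _)
  | and φ ψ ih1 ih2 =>
    rintro i (hi | hi)
    · exact (ih1 i hi).trans ((le_pr_left _ _).trans (le_pr_right _ _))
    · exact (ih2 i hi).trans ((le_pr_right _ _).trans (le_pr_right _ _))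
  | all j φ ih => intro i hi; exact (ih i hi).trans ((le_pr_right _ _).trans (le_pr_right _ _))
  | allS j φ ih => intro i hi; exact (ih i hi.1).trans ((le_pr_right _ _).trans (le_pr_right _ _))

theorem clo_sentence (N : ℕ) (φ : Fm) (h : φ.code < N) : (clo N φ).IsSentence := by
  constructor
  · refine Set.eq_empty_of_forall_notMem fun i hi => ?_
    have h1 := clo_fvN N φ hi
    have h2 := fvN_le_code φ i h1.1
    have h3 := h1.2
    omega
  · refine Set.eq_empty_of_forall_notMem fun i hi => ?_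
    have h1 := clo_fvS N φ hi
    have h2 := fvS_le_code φ i h1.1
    have h3 := h1.2
    omega

/-! ### the set of sentences -/

/-- The basic axioms and the induction axiom. -/
def basicAx : List Fm :=
  [.neg (.eq (.add (.var 0) .one) .zero),
   .imp (.eq (.add (.var 0) .one) (.add (.var 1) .one)) (.eq (.var 0) (.var 1)),
   .eq (.add (.var 0) .zero) (.var 0),
   .eq (.add (.var 0) (.add (.var 1) .one)) (.add (.add (.var 0) (.var 1)) .one),
   .eq (.mul (.var 0) .zero) .zero,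
   .eq (.mul (.var 0) (.add (.var 1) .one)) (.add (.mul (.var 0) (.var 1)) (.var 0)),
   .neg (.lt (.var 0) .zero),
   .iff (.lt (.var 0) (.add (.var 1) .one)) (.or (.lt (.var 0) (.var 1)) (.eq (.var 0) (.var 1))),
   .imp (.and (.mem .zero 0)
      (.all 0 (.imp (.mem (.var 0) 0) (.mem (.add (.var 0) .one) 0)))) (.all 0 (.mem (.var 0) 0))]

theorem aca0_iff (φ : Fm) : ACA0 φ ↔ φ ∈ basicAx ∨
    ∃ i j θ, θ.Arithmetical ∧ j ∉ θ.fvS ∧ φ = compAx i j θ := by
  constructor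
  · intro h
    cases h with
    | comprehension φ i j h1 h2 => exact Or.inr ⟨i, j, φ, h1, h2, rfl⟩
    | _ => left; simp [basicAx]
  · rintro (h | ⟨i, j, θ, h1, h2, rfl⟩)
    · simp only [basicAx, List.mem_cons, List.not_mem_nil, or_false] at h
      rcases h with rfl | rfl | rfl | rfl | rfl | rfl | rfl | rfl | rfl
      · exact ACA0.succ_ne_zero
      · exact ACA0.succ_inj
      · exact ACA0.add_zero
      · exact ACA0.add_succ
      · exact ACA0.mul_zero
      · exact ACA0.mul_succ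
      · exact ACA0.not_lt_zero
      · exact ACA0.lt_succ
      · exact ACA0.induction
    · exact ACA0.comprehension θ i j h1 h2

/-- Selected axioms, with fresh variables chosen large. -/
def SelAx (ψ : Fm) : Prop := ψ ∈ basicAx ∨
  (∃ i j θ, θ.Arithmetical ∧ θ.code < j ∧ ψ = compAx i j θ) ∨
  ∃ k θ n m Y Z, θ.Arithmetical ∧ (Fm.exS k θ).code < Z ∧ ¬ Z = Y ∧ ¬ m = n ∧
    ψ = choiceAx n m Y Z (.exS k θ)

/-- A set of sentences equivalent to `Sigma^1_1-AC_0`. -/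
def T0 : Set Fm := {χ | ∃ N ψ, SelAx ψ ∧ ψ.code < N ∧ χ = clo N ψ}

theorem sel_sigma {ψ : Fm} (h : SelAx ψ) : Sigma11AC0 ψ := by
  rcases h with h | ⟨i, j, θ, h1, h2, rfl⟩ | ⟨k, θ, n, m, Y, Z, h1, h2, h3, h4, rfl⟩
  · exact .aca0 _ ((aca0_iff _).mpr (Or.inl h))
  · refine .aca0 _ ((aca0_iff _).mpr (Or.inr ⟨i, j, θ, h1, fun hj => ?_, rfl⟩))
    have := fvS_le_code θ j hj
    omega
  · refine .choice _ n m Y Z ⟨k, θ, rfl, h1⟩ (fun hj => ?_) h3 h4
    have := fvS_le_code _ Z hj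
    omega

theorem T0_sentence {φ : Fm} (h : φ ∈ T0) : φ.IsSentence := by
  obtain ⟨N, ψ, _, h2, rfl⟩ := h
  exact clo_sentence N ψ h2

theorem T0_proved {φ : Fm} (h : φ ∈ T0) : Proves {ψ | Sigma11AC0 ψ} φ := by
  obtain ⟨N, ψ, h1, _, rfl⟩ := h
  intro M hM
  exact (holds_clo M N ψ).mpr (hM ψ (sel_sigma h1))

theorem T0_sel {M : Model} (hM : ∀ φ ∈ T0, M.Holds φ) {ψ : Fm} (h : SelAx ψ) : M.Holds ψ :=
  (holds_clo M (ψ.code + 1) ψ).mp (hM _ ⟨_, ψ, h, Nat.lt_succ_self _, rfl⟩)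

theorem T0_proves {φ : Fm} (h : Sigma11AC0 φ) : Proves T0 φ := by
  intro M hM
  cases h with
  | aca0 φ h =>
    rcases (aca0_iff φ).mp h with h | ⟨i, j, θ, h1, h2, rfl⟩
    · exact T0_sel hM (Or.inl h)
    · intro v V hV
      have h3 := T0_sel hM (Or.inr (Or.inl ⟨i, θ.code + 1, θ, h1, Nat.lt_succ_self _, rfl⟩)) v V hV
      rw [compAx, Sat_exS] at h3 ⊢
      obtain ⟨A, hA, h3⟩ := h3
      refine ⟨A, hA, fun a => ?_⟩
      have h4 := h3 a
      rw [Sat_iff] at h4 ⊢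
      have h5 : ∀ v', Sat M v' (update V (θ.code + 1) A) θ ↔ Sat M v' (update V j A) θ := by
        intro v'
        refine Sat_congr M θ _ _ _ _ (fun _ _ => rfl) fun s hs => ?_
        have h6 : s ≠ θ.code + 1 := by have := fvS_le_code θ s hs; omega
        have h7 : s ≠ j := by rintro rfl; exact h2 hs
        rw [update_of_ne h6, update_of_ne h7]
      rw [h5] at h4
      simpa [Sat, Tm.val] using h4
  | choice η n m Y Z h1 h2 h3 h4 =>
    obtain ⟨k, θ, rfl, hθ⟩ := h1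
    intro v V hV
    set Z' := max (Fm.exS k θ).code Y + 1 with hZ'
    have hc : (Fm.exS k θ).code < Z' := by omega
    have hY : ¬ Z' = Y := by omega
    have h5 := T0_sel hM (Or.inr (Or.inr ⟨k, θ, n, m, Y, Z', hθ, hc, hY, h4, rfl⟩)) v V hV
    rw [choiceAx, Sat_imp] at h5 ⊢
    intro h6
    have h7 := h5 h6
    rw [Sat_exS] at h7 ⊢
    obtain ⟨A, hA, h7⟩ := h7
    refine ⟨A, hA, fun a => ?_⟩
    have h8 := h7 a
    rw [Sat_exS] at h8 ⊢
    obtain ⟨B, hB, h9, h10⟩ := h8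
    refine ⟨B, hB, fun c => ?_, ?_⟩
    · have h11 := h9 c
      rw [Sat_iff] at h11 ⊢
      simpa [Sat, Tm.val, update_of_ne hY, update_of_ne h3] using h11
    · refine (Sat_congr M _ _ _ _ _ (fun _ _ => rfl) fun s hs => ?_).mp h10
      by_cases hsY : s = Y
      · subst hsY; rw [update_self, update_self]
      · rw [update_of_ne hsY, update_of_ne hsY]
        have h6 : s ≠ Z' := by have := fvS_le_code _ s hs; omega
        have h7 : s ≠ Z := by rintro rfl; exact h2 hs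
        rw [update_of_ne h6, update_of_ne h7]

/-! ### truth in the standard model -/

theorem std_sigma {φ : Fm} (h : Sigma11AC0 φ) : std.Holds φ := by
  cases h with
  | aca0 φ h =>
    rcases (aca0_iff φ).mp h with h | ⟨i, j, θ, h1, h2, rfl⟩
    · simp only [basicAx, List.mem_cons, List.not_mem_nil, or_false] at h
      rcases h with rfl | rfl | rfl | rfl | rfl | rfl | rfl | rfl | rfl <;> intro v V hV
      · exact Nat.succ_ne_zero (v 0)
      · rw [Sat_imp]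
        intro h
        exact Nat.succ.inj h
      · exact Nat.add_zero (v 0)
      · exact (Nat.add_assoc (v 0) (v 1) 1).symm
      · exact Nat.mul_zero (v 0)
      · exact Nat.mul_succ (v 0) (v 1)
      · exact Nat.not_lt_zero (v 0)
      · rw [Sat_iff, Sat_or]
        exact Nat.lt_succ_iff_lt_or_eq
      · rw [Sat_imp]
        rintro ⟨h0, h1⟩ a
        have h2 : ∀ a : ℕ, a ∈ V 0 := by
          intro a
          induction a with
          | zero => exact h0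
          | succ a ih =>
            have h3 := (Sat_imp _ _ _ _ _).mp (h1 a)
            have h4 : update v 0 a 0 = a := update_self 0 a v
            simp only [Sat, Tm.val, h4] at h3
            exact h3 ih
        have h4 : update v 0 a 0 = a := update_self 0 a v
        show (update v 0 a) 0 ∈ V 0
        rw [h4]
        exact h2 a
    · intro v V hV
      rw [compAx, Sat_exS]
      refine ⟨{a | Sat std (update v i a) V θ}, trivial, fun a => ?_⟩
      rw [Sat_iff]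
      have h3 : Sat std (update v i a) (update V j {a | Sat std (update v i a) V θ}) θ ↔
          Sat std (update v i a) V θ := by
        refine Sat_congr std θ _ _ _ _ (fun _ _ => rfl) fun s hs => ?_
        rw [update_of_ne (by rintro rfl; exact h2 hs)]
      rw [h3]
      simp [Sat, Tm.val]
  | choice η n m Y Z h1 h2 h3 h4 =>
    intro v V hV
    rw [choiceAx, Sat_imp]
    intro h5
    have h6 : ∀ a : std.Num, ∃ A : Set std.Num, Sat std (update v n a) (update V Y A) η := by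
      intro a
      have h7 := h5 a
      rw [Sat_exS] at h7
      obtain ⟨A, _, hA⟩ := h7
      exact ⟨A, hA⟩
    choose A hA using h6
    rw [Sat_exS]
    refine ⟨{x : std.Num | ∃ a b : std.Num, b ∈ A a ∧ x = std.pr b a}, trivial,
      fun (a : std.Num) => ?_⟩
    rw [Sat_exS]
    refine ⟨A a, trivial, fun (b : std.Num) => ?_, ?_⟩
    · rw [Sat_iff]
      simp only [Sat, val_prT, Tm.val, update_self, update_of_ne h3, update_of_ne h4.symm]
      constructor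
      · intro hb
        exact ⟨a, b, hb, rfl⟩
      · rintro ⟨a', b', hb', he⟩
        obtain ⟨h8, h9⟩ := pr_inj (show pr b a = pr b' a' from he)
        have h8' : b = b' := h8
        have h9' : a = a' := h9
        rw [h8', h9']
        exact hb'
    · refine (Sat_congr std _ _ _ _ _ (fun _ _ => rfl) fun s hs => ?_).mp (hA a)
      by_cases hsY : s = Y
      · subst hsY; rw [update_self, update_self]
      · rw [update_of_ne hsY, update_of_ne hsY, update_of_ne (by rintro rfl; exact h2 hs)]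

theorem T0_std {φ : Fm} (h : φ ∈ T0) : std.Holds φ :=
  T0_proved h std fun _ hψ => std_sigma hψ

/-! ### definability -/

def SelC (c : ℕ) : Prop := c ∈ basicAx.map Fm.code ∨
  (∃ i j a, ArC a ∧ a < j ∧ c = cComp i j a) ∨
  ∃ k a n m Y Z, ArC a ∧ cExS k a < Z ∧ ¬ Z = Y ∧ ¬ m = n ∧ c = cChoice n m Y Z (cExS k a)

theorem selC_iff (c : ℕ) : SelC c ↔ ∃ ψ, SelAx ψ ∧ ψ.code = c := by
  constructor
  · rintro (h | ⟨i, j, a, ⟨θ, h1, rfl⟩, h2, rfl⟩ | ⟨k, a, n, m, Y, Z, ⟨θ, h1, rfl⟩, h2, h3, h4, rfl⟩)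
    · obtain ⟨ψ, hψ, rfl⟩ := List.mem_map.mp h
      exact ⟨ψ, Or.inl hψ, rfl⟩
    · exact ⟨_, Or.inr (Or.inl ⟨i, j, θ, h1, h2, rfl⟩), rfl⟩
    · exact ⟨_, Or.inr (Or.inr ⟨k, θ, n, m, Y, Z, h1, h2, h3, h4, rfl⟩), rfl⟩
  · rintro ⟨ψ, h | ⟨i, j, θ, h1, h2, rfl⟩ | ⟨k, θ, n, m, Y, Z, h1, h2, h3, h4, rfl⟩, rfl⟩
    · exact Or.inl (List.mem_map.mpr ⟨ψ, h, rfl⟩)
    · exact Or.inr (Or.inl ⟨i, j, θ.code, ⟨θ, h1, rfl⟩, h2, rfl⟩)
    · exact Or.inr (Or.inr ⟨k, θ.code, n, m, Y, Z, ⟨θ, h1, rfl⟩, h2, h3, h4, rfl⟩)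

section dc

variable {D : ((ℕ → ℕ) → Prop) → Prop} (h : DC D)
include h

theorem d_list (l : List ℕ) : D (fun w => w 0 ∈ l) := by
  induction l with
  | nil => exact h.iff (fun w => by simp) h.bot
  | cons a l ih =>
    exact h.iff (fun w => by simp) (h.or (h.eq (h.tvar 0) (tconst h a)) ih)

theorem d_sel : D (fun w => SelC (w 0)) := by
  refine h.or (d_list h _) (h.or ?_ ?_)
  · refine h.ex' (S := fun i w => ∃ j a, ArC a ∧ a < j ∧ w 0 = cComp i j a)
      (h.ex' (S := fun j w => ∃ a, ArC a ∧ a < j ∧ w 1 = cComp (w 0) j a)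
      (h.ex' (S := fun a w => ArC a ∧ a < w 0 ∧ w 2 = cComp (w 1) (w 0) a) ?_))
    exact h.and (h.app1 (d_ar h) (h.tvar 0)) (h.and (h.lt (h.tvar 0) (h.tvar 1))
      (h.eq (h.tvar 3) (tcomp h (h.tvar 2) (h.tvar 1) (h.tvar 0))))
  · refine h.ex' (S := fun k w => ∃ a n m Y Z, ArC a ∧ cExS k a < Z ∧ ¬ Z = Y ∧ ¬ m = n ∧
        w 0 = cChoice n m Y Z (cExS k a))
      (h.ex' (S := fun a w => ∃ n m Y Z, ArC a ∧ cExS (w 0) a < Z ∧ ¬ Z = Y ∧ ¬ m = n ∧
        w 1 = cChoice n m Y Z (cExS (w 0) a))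
      (h.ex' (S := fun n w => ∃ m Y Z, ArC (w 0) ∧ cExS (w 1) (w 0) < Z ∧ ¬ Z = Y ∧ ¬ m = n ∧
        w 2 = cChoice n m Y Z (cExS (w 1) (w 0)))
      (h.ex' (S := fun m w => ∃ Y Z, ArC (w 1) ∧ cExS (w 2) (w 1) < Z ∧ ¬ Z = Y ∧ ¬ m = w 0 ∧
        w 3 = cChoice (w 0) m Y Z (cExS (w 2) (w 1)))
      (h.ex' (S := fun Y w => ∃ Z, ArC (w 2) ∧ cExS (w 3) (w 2) < Z ∧ ¬ Z = Y ∧ ¬ w 0 = w 1 ∧
        w 4 = cChoice (w 1) (w 0) Y Z (cExS (w 3) (w 2)))
      (h.ex' (S := fun Z w => ArC (w 3) ∧ cExS (w 4) (w 3) < Z ∧ ¬ Z = w 0 ∧ ¬ w 1 = w 2 ∧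
        w 5 = cChoice (w 2) (w 1) (w 0) Z (cExS (w 4) (w 3))) ?_)))))
    have hη : DT D (fun w => cExS (w 5) (w 4)) := texS h (h.tvar 5) (h.tvar 4)
    exact h.and (h.app1 (d_ar h) (h.tvar 4)) (h.and (h.lt hη (h.tvar 0))
      (h.and (h.not (h.eq (h.tvar 0) (h.tvar 1))) (h.and (h.not (h.eq (h.tvar 2) (h.tvar 3)))
      (h.eq (h.tvar 6) (tchoice h (h.tvar 3) (h.tvar 2) (h.tvar 1) (h.tvar 0) hη)))))

theorem d_T0 : D (fun w => ∃ φ ∈ T0, φ.code = w 0) := by
  refine h.iff (fun w => ?_) (h.ex' (S := fun N w => ∃ c, SelC c ∧ c < N ∧ w 0 = cClo N c)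
    (h.ex' (S := fun c w => SelC c ∧ c < w 0 ∧ w 1 = cClo (w 0) c)
      (h.and (h.app1 (d_sel h) (h.tvar 0)) (h.and (h.lt (h.tvar 0) (h.tvar 1))
        (h.app3 (R := fun x y z => x = cClo y z) (d_clo h) (h.tvar 2) (h.tvar 1) (h.tvar 0))))))
  constructor
  · rintro ⟨N, c, h1, h2, h3⟩
    obtain ⟨ψ, h4, rfl⟩ := (selC_iff c).mp h1
    exact ⟨clo N ψ, ⟨N, ψ, h4, h2, rfl⟩, by rw [code_clo, h3]⟩
  · rintro ⟨φ, ⟨N, ψ, h4, h2, rfl⟩, h5⟩
    exact ⟨N, ψ.code, (selC_iff _).mpr ⟨ψ, h4, rfl⟩, h2, by rw [← h5, code_clo]⟩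

end dc

end Pool.Agent.NH89.SAC
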