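import Pool.Agent.H986R3.SOABasic

/-!
The axioms of `Sigma^1_1-AC_0` and `Pi^1_1` definitions of theories.
-/

set_option autoImplicit false

namespace Pool.Agent.NH89.SAC

open Pool.Agent.H986R3.SOA

/-- The instance `∀ n ∃ Y η(n, Y) → ∃ Z ∀ n η(n, (Z)_n)` of the axiom of choice, where
`(Z)_n = {m : (m, n) ∈ Z}`; here `η(n, (Z)_n)` is written as
`∃ Y (∀ m (m ∈ Y ↔ (m, n) ∈ Z) ∧ η(n, Y))`. -/
def choiceAx (n m Y Z : ℕ) (η : Fm) : Fm :=
  .imp (.all n (.exS Y η))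
    (.exS Z (.all n (.exS Y (.and
      (.all m (.iff (.mem (.var m) Y) (.mem (prT (.var m) (.var n)) Z))) η))))

/-- The axioms of `Sigma^1_1-AC_0`, free variables being universally quantified: the axioms of
`ACA_0` and the `Sigma^1_1` axiom of choice. -/
inductive Sigma11AC0 : Fm → Prop
  | aca0 (φ : Fm) : ACA0 φ → Sigma11AC0 φ
  | choice (η : Fm) (n m Y Z : ℕ) : η.IsSigma11 → Z ∉ η.fvS → Z ≠ Y → m ≠ n →
      Sigma11AC0 (choiceAx n m Y Z η)

/-- The `Pi^1_1` formula `τ(a)` defines (the set of Goedel numbers of the members of) `T` in the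
standard model. -/
def Pi11Defines (τ : Fm) (T : Set Fm) : Prop :=
  τ.IsPi11 ∧ τ.FreeIn {0} ∧ ∀ n : ℕ, SatN n 0 0 τ ↔ ∃ φ ∈ T, φ.code = n

end Pool.Agent.NH89.SAC
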