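import Pool.Agent.H986R3.SOAFinal
import Pool.Agent.Helper180.ArithDef
import Pool.Agent.NH89.SACDefs

/-! Arithmetical definability: from `DC` classes to arithmetical formulas, and the definability of
finitary inductive definitions. -/

set_option autoImplicit false

namespace Pool.Agent.NH89.SAC

open Function Pool.Agent.H986R3.SOA Pool.Agent.Helper180.ArithDef

section dc

variable {D : ((ℕ → ℕ) → Prop) → Prop} (h : DC D)
include h

theorem tpr {F G : (ℕ → ℕ) → ℕ} (hF : DT D F) (hG : DT D G) :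
    DT D (fun w => pr (F w) (G w)) :=
  h.tadd (h.tmul (h.tadd hF hG) (h.tadd hF hG)) hF

theorem tconst (n : ℕ) : DT D (fun _ => n) := by
  induction n with
  | zero => exact h.tzero
  | succ n ih => exact h.tadd ih h.tone

end dc

/-- The least set of numbers that contains `R0` and is closed under the rules `R2 n a b`. -/
inductive Gen (R0 : ℕ → Prop) (R2 : ℕ → ℕ → ℕ → Prop) : ℕ → Prop
  | base (n : ℕ) : R0 n → Gen R0 R2 n
  | step (n a b : ℕ) : Gen R0 R2 a → Gen R0 R2 b → R2 n a b → Gen R0 R2 n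

theorem gen_iff (R0 : ℕ → Prop) (R2 : ℕ → ℕ → ℕ → Prop) (n : ℕ) : Gen R0 R2 n ↔
    ∃ (s : ℕ → ℕ) (k : ℕ), s k = n ∧ ∀ i, i ≤ k → (R0 (s i) ∨
      ∃ a b, a < i ∧ b < i ∧ R2 (s i) (s a) (s b)) := by
  constructor
  · intro hn
    induction hn with
    | base n hn => exact ⟨fun _ => n, 0, rfl, fun i _ => Or.inl hn⟩
    | step n a b _ _ hr iha ihb =>
      obtain ⟨s1, k1, h1, h1'⟩ := iha
      obtain ⟨s2, k2, h2, h2'⟩ := ihb
      refine ⟨fun i => if i ≤ k1 then s1 i else if i ≤ k1 + 1 + k2 then s2 (i - (k1 + 1)) else n,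
        k1 + 1 + k2 + 1, ?_, ?_⟩
      · simp only
        rw [if_neg (by omega), if_neg (by omega)]
      · intro i hi
        simp only
        by_cases hi1 : i ≤ k1
        · rw [if_pos hi1]
          rcases h1' i hi1 with h | ⟨a', b', ha', hb', hab⟩
          · exact Or.inl h
          · right
            refine ⟨a', b', ha', hb', ?_⟩
            rw [if_pos (by omega), if_pos (by omega)]
            exact hab
        · rw [if_neg hi1]
          by_cases hi2 : i ≤ k1 + 1 + k2
          · rw [if_pos hi2]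
            rcases h2' (i - (k1 + 1)) (by omega) with h | ⟨a', b', ha', hb', hab⟩
            · exact Or.inl h
            · right
              refine ⟨a' + (k1 + 1), b' + (k1 + 1), by omega, by omega, ?_⟩
              rw [if_neg (by omega), if_pos (by omega), if_neg (by omega), if_pos (by omega)]
              simpa using hab
          · rw [if_neg hi2]
            right
            refine ⟨k1, k2 + (k1 + 1), by omega, by omega, ?_⟩
            rw [if_pos (le_refl k1), if_neg (by omega), if_pos (by omega), h1]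
            simpa [h2] using hr
  · rintro ⟨s, k, hk, h⟩
    have key : ∀ i, i ≤ k → Gen R0 R2 (s i) := by
      intro i
      induction i using Nat.strong_induction_on with
      | _ i ih =>
        intro hi
        rcases h i hi with h0 | ⟨a, b, ha, hb, hab⟩
        · exact Gen.base _ h0
        · exact Gen.step _ _ _ (ih a ha (by omega)) (ih b hb (by omega)) hab
    rw [← hk]
    exact key k le_rfl

theorem dgen {D : ((ℕ → ℕ) → Prop) → Prop} (h : DC D) {R0 : ℕ → Prop} {R2 : ℕ → ℕ → ℕ → Prop}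
    (h0 : D (fun w => R0 (w 0))) (h2 : D (fun w => R2 (w 0) (w 1) (w 2))) :
    D (fun w => Gen R0 R2 (w 0)) := by
  refine h.iff (fun w => ?_) (h.ex' (S := fun c w => ∃ k, Nat.beta c k = w 0 ∧
      ∀ i, i ≤ k → (R0 (Nat.beta c i) ∨ ∃ a b, a < i ∧ b < i ∧
        R2 (Nat.beta c i) (Nat.beta c a) (Nat.beta c b)))
    (h.ex' (S := fun k w => Nat.beta (w 0) k = w 1 ∧
      ∀ i, i ≤ k → (R0 (Nat.beta (w 0) i) ∨ ∃ a b, a < i ∧ b < i ∧
        R2 (Nat.beta (w 0) i) (Nat.beta (w 0) a) (Nat.beta (w 0) b)))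
      (h.and (h.eq (h.tbeta (h.tvar 1) (h.tvar 0)) (h.tvar 2))
        (h.all' (S := fun i w => i ≤ w 0 → (R0 (Nat.beta (w 1) i) ∨ ∃ a b, a < i ∧ b < i ∧
            R2 (Nat.beta (w 1) i) (Nat.beta (w 1) a) (Nat.beta (w 1) b)))
          (h.imp (h.le (h.tvar 0) (h.tvar 1))
            (h.or (h.app1 h0 (h.tbeta (h.tvar 2) (h.tvar 0)))
              (h.ex' (S := fun a w => ∃ b, a < w 0 ∧ b < w 0 ∧
                  R2 (Nat.beta (w 2) (w 0)) (Nat.beta (w 2) a) (Nat.beta (w 2) b))
                (h.ex' (S := fun b w => w 0 < w 1 ∧ b < w 1 ∧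
                    R2 (Nat.beta (w 3) (w 1)) (Nat.beta (w 3) (w 0)) (Nat.beta (w 3) b))
                  (h.and (h.lt (h.tvar 1) (h.tvar 2)) (h.and (h.lt (h.tvar 0) (h.tvar 2))
                    (h.app3 h2 (h.tbeta (h.tvar 4) (h.tvar 2)) (h.tbeta (h.tvar 4) (h.tvar 1))
                      (h.tbeta (h.tvar 4) (h.tvar 0)))))))))))))
  rw [gen_iff]
  constructor
  · rintro ⟨c, k, hk, hc⟩
    exact ⟨Nat.beta c, k, hk, hc⟩
  · rintro ⟨s, k, hk, hs⟩
    let l := (List.range (k + 1)).map s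
    have hl : l.length = k + 1 := by simp [l]
    have hb : ∀ i, i ≤ k → Nat.beta (Nat.unbeta l) i = s i := by
      intro i hi
      have := Nat.beta_unbeta_coe l ⟨i, by omega⟩
      simp only at this
      rw [this]
      simp [l]
    refine ⟨Nat.unbeta l, k, ?_, ?_⟩
    · rw [hb k le_rfl]; exact hk
    · intro i hi
      rw [hb i hi]
      rcases hs i hi with h0 | ⟨a, b, ha, hb', hab⟩
      · exact Or.inl h0
      · right
        refine ⟨a, b, ha, hb', ?_⟩
        rw [hb a (by omega), hb b (by omega)]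
        exact hab

/-- The predicates on sequences of natural numbers that are defined by arithmetical formulas
without set variables (with arbitrary choice of names of the number variables). -/
def AD (R : (ℕ → ℕ) → Prop) : Prop :=
  ∃ b : ℕ, (∀ w w' : ℕ → ℕ, (∀ i, i < b → w i = w' i) → (R w ↔ R w')) ∧
    ∀ ρ : ℕ → ℕ, ∃ φ : Fm, φ.Arithmetical ∧ φ.fvS = ∅ ∧ φ.fvN ⊆ ρ '' {i | i < b} ∧
      ∀ (v : ℕ → ℕ) (V : ℕ → Set ℕ), Sat std v V φ ↔ R (fun i => v (ρ i))

theorem dc_ad : DC AD := by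
  constructor
  · refine ⟨3, fun w w' h => ?_, fun ρ => ⟨.eq (.add (.var (ρ 0)) (.var (ρ 1))) (.var (ρ 2)),
      trivial, rfl, ?_, fun v V => Iff.rfl⟩⟩
    · show w 0 + w 1 = w 2 ↔ w' 0 + w' 1 = w' 2
      rw [h 0 (by omega), h 1 (by omega), h 2 (by omega)]
    · rintro x ((hx | hx) | hx)
      · exact ⟨0, by simp, hx.symm⟩
      · exact ⟨1, by simp, hx.symm⟩
      · exact ⟨2, by simp, hx.symm⟩
  · refine ⟨3, fun w w' h => ?_, fun ρ => ⟨.eq (.mul (.var (ρ 0)) (.var (ρ 1))) (.var (ρ 2)),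
      trivial, rfl, ?_, fun v V => Iff.rfl⟩⟩
    · show w 0 * w 1 = w 2 ↔ w' 0 * w' 1 = w' 2
      rw [h 0 (by omega), h 1 (by omega), h 2 (by omega)]
    · rintro x ((hx | hx) | hx)
      · exact ⟨0, by simp, hx.symm⟩
      · exact ⟨1, by simp, hx.symm⟩
      · exact ⟨2, by simp, hx.symm⟩
  · refine ⟨0, fun w w' _ => Iff.rfl, fun ρ => ⟨.neg (.eq .zero .zero), trivial, rfl, ?_,
      fun v V => ?_⟩⟩
    · rintro x (hx | hx) <;> exact hx.elim
    · exact ⟨fun h => h rfl, fun h => h.elim⟩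
  · rintro R S ⟨b1, h1, f1⟩ ⟨b2, h2, f2⟩
    refine ⟨max b1 b2, fun w w' h => ?_, fun ρ => ?_⟩
    · exact imp_congr (h1 w w' (fun i hi => h i (lt_of_lt_of_le hi (le_max_left _ _))))
        (h2 w w' (fun i hi => h i (lt_of_lt_of_le hi (le_max_right _ _))))
    · obtain ⟨φ, a1, a2, a3, a4⟩ := f1 ρ
      obtain ⟨ψ, c1, c2, c3, c4⟩ := f2 ρ
      refine ⟨φ.imp ψ, ⟨a1, c1⟩, ?_, ?_, fun v V => ?_⟩
      · show φ.fvS ∪ ψ.fvS = ∅
        rw [a2, c2, Set.union_empty]
      · rintro x (hx | hx)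
        · obtain ⟨i, hi, rfl⟩ := a3 hx
          exact ⟨i, show i < max b1 b2 from lt_of_lt_of_le hi (le_max_left _ _), rfl⟩
        · obtain ⟨i, hi, rfl⟩ := c3 hx
          exact ⟨i, show i < max b1 b2 from lt_of_lt_of_le hi (le_max_right _ _), rfl⟩
      · exact (Sat_imp std v V φ ψ).trans (imp_congr (a4 v V) (c4 v V))
  · rintro R ⟨b, h1, f1⟩
    refine ⟨b, fun w w' h => ?_, fun ρ => ?_⟩
    · refine forall_congr' fun a => h1 _ _ fun i hi => ?_
      cases i with
      | zero => rfl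
      | succ i => exact h i (by omega)
    · obtain ⟨z, hz⟩ : ∃ z, ∀ i < b, ρ i ≠ z := by
        refine ⟨(Finset.range b).sup ρ + 1, fun i hi he => ?_⟩
        have := Finset.le_sup (f := ρ) (Finset.mem_range.mpr hi)
        omega
      obtain ⟨φ, a1, a2, a3, a4⟩ := f1 (cns z ρ)
      refine ⟨.all z φ, a1, a2, ?_, fun v V => ?_⟩
      · rintro x ⟨hx, hxz⟩
        obtain ⟨i, hi, rfl⟩ := a3 hx
        cases i with
        | zero => exact absurd rfl hxz
        | succ i =>
          have hi' : i + 1 < b := hi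
          exact ⟨i, show i < b by omega, rfl⟩
      · refine forall_congr' fun (a : ℕ) => ?_
        refine (a4 (update v z a) V).trans ?_
        refine h1 _ _ fun i hi => ?_
        cases i with
        | zero => simp
        | succ i =>
          simp only [cns_succ]
          rw [update_of_ne (hz i (by omega))]
  · rintro R ρ₀ ⟨b, h1, f1⟩
    refine ⟨(Finset.range b).sup ρ₀ + 1, fun w w' h => ?_, fun ρ => ?_⟩
    · refine h1 _ _ fun i hi => h _ ?_
      have := Finset.le_sup (f := ρ₀) (Finset.mem_range.mpr hi)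
      omega
    · obtain ⟨φ, a1, a2, a3, a4⟩ := f1 (fun i => ρ (ρ₀ i))
      refine ⟨φ, a1, a2, ?_, fun v V => a4 v V⟩
      intro x hx
      obtain ⟨i, hi, rfl⟩ := a3 hx
      have := Finset.le_sup (f := ρ₀) (Finset.mem_range.mpr (show i < b from hi))
      exact ⟨ρ₀ i, show ρ₀ i < (Finset.range b).sup ρ₀ + 1 by omega, rfl⟩

/-- Arithmetically definable sets of numbers are defined by arithmetical formulas with only the
number variable `0` free. -/
theorem ad_formula {P : ℕ → Prop} (h : AD (fun w => P (w 0))) :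
    ∃ φ : Fm, φ.Arithmetical ∧ φ.FreeIn {0} ∧ ∀ n, SatN n 0 0 φ ↔ P n := by
  obtain ⟨b, _, f⟩ := h
  obtain ⟨φ, a1, a2, a3, a4⟩ := f (fun _ => 0)
  refine ⟨φ, a1, ⟨?_, a2⟩, fun n => a4 _ _⟩
  intro x hx
  obtain ⟨i, _, rfl⟩ := a3 hx
  rfl

end Pool.Agent.NH89.SAC
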