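import Pool.Agent.NH89.SACCodes

/-! The theory `Sigma^1_1-AC_0` together with one true sentence proves its own
`Pi^1_1`-soundness with respect to a `Pi^1_1` definition of its axioms. -/

set_option autoImplicit false

namespace Pool.Agent.NH89.SAC

open Function Pool.Agent.H986R3.SOA Pool.Agent.Helper180.ArithDef

/-- A false sentence; it defines the empty set of axioms. -/
def falsum : Fm := .neg (.eq .zero .zero)

/-- The truth value of a formula without free set variables. -/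
def Ev (M : Model) (φ : Fm) (a p x : M.Num) : Prop := Sat M (asg a p x) (fun _ => ∅) φ

theorem ev_iff (M : Model) {φ : Fm} {s : Set ℕ} (h : φ.FreeIn s) (a p x : M.Num)
    (v : ℕ → M.Num) (V : ℕ → Set M.Num) (hs : ∀ i ∈ s, v i = asg a p x i) :
    Sat M v V φ ↔ Ev M φ a p x := by
  refine Sat_congr M φ _ _ _ _ (fun i hi => hs i (h.1 hi)) fun i hi => ?_
  rw [h.2] at hi
  exact hi.elim

theorem ev_ax (M : Model) (𝒜 : Arithmetization) (a p x x' : M.Num) :
    Ev M 𝒜.axIn a p x ↔ Ev M 𝒜.axIn a p x' := by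
  refine ev_iff M 𝒜.axIn_free a p x' _ _ fun i hi => ?_
  rcases hi with rfl | hi
  · rfl
  · rw [Set.mem_singleton_iff.mp hi]; rfl

theorem ev_prf (M : Model) (𝒜 : Arithmetization) (a a' p x : M.Num) :
    Ev M 𝒜.prf a p x ↔ Ev M 𝒜.prf a' p x := by
  refine ev_iff M 𝒜.prf_free a' p x _ _ fun i hi => ?_
  rcases hi with rfl | hi
  · rfl
  · rw [Set.mem_singleton_iff.mp hi]; rfl

theorem ev_two (M : Model) {φ : Fm} (h : φ.FreeIn {2}) (a a' p p' x : M.Num) :
    Ev M φ a p x ↔ Ev M φ a' p' x := by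
  refine ev_iff M h a' p' x _ _ fun i hi => ?_
  rw [Set.mem_singleton_iff.mp hi]; rfl

theorem ev_zero (M : Model) {φ : Fm} (h : φ.FreeIn {0}) (a p p' x x' : M.Num) :
    Ev M φ a p x ↔ Ev M φ a p' x' := by
  refine ev_iff M h a p' x' _ _ fun i hi => ?_
  rw [Set.mem_singleton_iff.mp hi]; rfl

theorem sat_reflection (M : Model) (𝒜 : Arithmetization) {τ : Fm} (hτ : τ.FreeIn {0})
    (v : ℕ → M.Num) (V : ℕ → Set M.Num) : Sat M v V (𝒜.reflection τ) ↔
      ∀ x, Ev M 𝒜.isPi x x x → ∀ p, Ev M 𝒜.prf x p x →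
        (∀ a, Ev M 𝒜.axIn a p x → Ev M τ a a a) → Ev M 𝒜.tr x x x := by
  have key : ∀ x, Sat M (update v 2 x) V (.imp (.and 𝒜.isPi (𝒜.Pr τ)) 𝒜.tr) ↔
      (Ev M 𝒜.isPi x x x → ∀ p, Ev M 𝒜.prf x p x →
        (∀ a, Ev M 𝒜.axIn a p x → Ev M τ a a a) → Ev M 𝒜.tr x x x) := by
    intro x
    rw [Sat_imp]
    have h1 : Sat M (update v 2 x) V 𝒜.isPi ↔ Ev M 𝒜.isPi x x x :=
      ev_iff M 𝒜.isPi_free _ _ _ _ _ fun i hi => by
        rw [Set.mem_singleton_iff.mp hi, update_self]; rfl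
    have h2 : Sat M (update v 2 x) V 𝒜.tr ↔ Ev M 𝒜.tr x x x :=
      ev_iff M 𝒜.tr_free _ _ _ _ _ fun i hi => by
        rw [Set.mem_singleton_iff.mp hi, update_self]; rfl
    have h3 : Sat M (update v 2 x) V (𝒜.Pr τ) ↔ ∃ p, Ev M 𝒜.prf x p x ∧
        ∀ a, Ev M 𝒜.axIn a p x → Ev M τ a a a := by
      rw [Arithmetization.Pr, Sat_ex]
      refine exists_congr fun p => and_congr ?_ (forall_congr' fun a => ?_)
      · refine ev_iff M 𝒜.prf_free _ _ _ _ _ fun i hi => ?_
        rcases hi with rfl | hi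
        · rw [update_self]; rfl
        · rw [Set.mem_singleton_iff.mp hi, update_of_ne (by norm_num), update_self]; rfl
      · rw [Sat_imp]
        refine imp_congr ?_ ?_
        · refine ev_iff M 𝒜.axIn_free _ _ _ _ _ fun i hi => ?_
          rcases hi with rfl | hi
          · rw [update_self]; rfl
          · rw [Set.mem_singleton_iff.mp hi, update_of_ne (by norm_num), update_self]; rfl
        · refine ev_iff M hτ _ _ _ _ _ fun i hi => ?_
          rw [Set.mem_singleton_iff.mp hi, update_self]; rfl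
    show (Sat M (update v 2 x) V 𝒜.isPi ∧ Sat M (update v 2 x) V (𝒜.Pr τ) →
      Sat M (update v 2 x) V 𝒜.tr) ↔ _
    rw [h1, h2, h3]
    constructor
    · intro h hI p hp ha
      exact h ⟨hI, p, hp, ha⟩
    · rintro h ⟨hI, p, hp, ha⟩
      exact h hI p hp ha
  exact forall_congr' key

theorem falsum_free : falsum.FreeIn {0} := by
  constructor
  · rintro i (hi | hi) <;> exact hi.elim
  · rfl

theorem ev_falsum (M : Model) (a p x : M.Num) : ¬ Ev M falsum a p x := fun h => h rfl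

theorem sat_tr_std (𝒜 : Arithmetization) {φ : Fm} (hφ : φ.IsPi11Sentence) (ht : std.Holds φ) :
    Ev std 𝒜.tr φ.code φ.code φ.code := by
  have h1 := 𝒜.tr_proves φ hφ std (fun ψ hψ => std_sigma (.aca0 _ hψ))
    (fun _ => std.zero) (fun _ => (∅ : Set std.Num)) (fun _ => trivial)
  rw [Sat_iff] at h1
  have h2 := h1.mpr (ht _ _ (fun _ => trivial)) (std.num φ.code)
  rw [Sat_imp] at h2
  have h3 := h2 (by simp only [Sat, Tm.val, update_self, val_numeral])
  have h4 : Ev std 𝒜.tr (std.num φ.code) (std.num φ.code) (std.num φ.code) :=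
    (ev_iff std 𝒜.tr_free _ _ _ _ _ fun i hi => by
      rw [Set.mem_singleton_iff.mp hi, update_self]; rfl).mp h3
  have h5 : std.num φ.code = φ.code := std_num φ.code
  rw [h5] at h4
  exact h4

theorem reflection_sentence (𝒜 : Arithmetization) {τ : Fm} (hτ : τ.FreeIn {0}) :
    (𝒜.reflection τ).IsSentence := by
  constructor
  · refine Set.eq_empty_of_forall_notMem fun i hi => ?_
    obtain ⟨hi, hi2⟩ := hi
    have hi2' : i ≠ 2 := hi2
    rcases hi with (hi | hi) | hi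
    · exact hi2 (𝒜.isPi_free.1 hi)
    · obtain ⟨hi, hi1⟩ := hi
      have hi1' : i ≠ 1 := hi1
      rcases hi with hi | ⟨hi | hi, hi0⟩
      · rcases 𝒜.prf_free.1 hi with rfl | h
        · exact hi1' rfl
        · exact hi2 h
      · rcases 𝒜.axIn_free.1 hi with rfl | h
        · exact hi0 rfl
        · exact hi1 h
      · exact hi0 (hτ.1 hi)
    · exact hi2 (𝒜.tr_free.1 hi)
  · refine Set.eq_empty_of_forall_notMem fun i hi => ?_
    rcases hi with (hi | hi) | hi
    · rw [𝒜.isPi_free.2] at hi; exact hi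
    · rcases hi with hi | hi | hi
      · rw [𝒜.prf_free.2] at hi; exact hi
      · rw [𝒜.axIn_free.2] at hi; exact hi
      · have hi : i ∈ τ.fvS := hi
        rw [hτ.2] at hi; exact hi
    · have hi : i ∈ 𝒜.tr.fvS := hi
      rw [𝒜.tr_free.2] at hi; exact hi

/-- The reflection sentence of a correct definition of a set of true sentences is true. -/
theorem reflection_true (𝒜 : Arithmetization) {T : Set Fm} (hT : ∀ φ ∈ T, φ.IsSentence)
    (hs : ∀ φ ∈ T, std.Holds φ) {P : ℕ → Prop}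
    (hP : ∀ n, P n → ∃ φ ∈ T, φ.code = n) :
    ∀ x : ℕ, Ev std 𝒜.isPi x x x → ∀ p : ℕ, Ev std 𝒜.prf x p x →
        (∀ a : ℕ, Ev std 𝒜.axIn a p x → P a) → Ev std 𝒜.tr x x x := by
  intro x hx p hp ha
  have h1 : SatN 0 0 x 𝒜.isPi := (ev_two std 𝒜.isPi_free _ _ _ _ _).mp hx
  obtain ⟨φ, hφ, rfl⟩ := (𝒜.isPi_std x).mp h1
  refine sat_tr_std 𝒜 hφ ?_
  refine (𝒜.prf_correct T hT φ hφ.2).mpr ⟨p, (ev_prf std 𝒜 _ _ _ _).mp hp, fun a h => ?_⟩
    std hs
  exact hP a (ha a ((ev_ax std 𝒜 _ _ _ _).mp h))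

/-- The matrix of the `Pi^1_1` definition. -/
def tauM (𝒜 : Arithmetization) (α θ : Fm) : Fm :=
  .and α (.all 2 (.all 1 (.imp (.and 𝒜.isPi (.and 𝒜.prf (.all 0 (.imp 𝒜.axIn α)))) θ)))

theorem sat_tau (M : Model) (𝒜 : Arithmetization) {α θ : Fm} {k : ℕ} (hα : α.FreeIn {0})
    (ht : 𝒜.tr = .allS k θ) (a : M.Num) : Ev M (.allS k (tauM 𝒜 α θ)) a a a ↔
      Ev M α a a a ∧ ∀ x, Ev M 𝒜.isPi x x x → ∀ p, Ev M 𝒜.prf x p x →
        (∀ b, Ev M 𝒜.axIn b p x → Ev M α b b b) → Ev M 𝒜.tr x x x := by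
  have hfree : θ.fvN ⊆ {2} := by
    have := 𝒜.tr_free.1
    rw [ht] at this
    exact this
  have hm : ∀ A : Set M.Num, Sat M (asg a a a) (update (fun _ => ∅) k A) (tauM 𝒜 α θ) ↔
      (Ev M α a a a ∧ ∀ x p, (Ev M 𝒜.isPi x x x ∧ Ev M 𝒜.prf x p x ∧
        ∀ b, Ev M 𝒜.axIn b p x → Ev M α b b b) →
        Sat M (asg x x x) (update (fun _ => ∅) k A) θ) := by
    intro A
    refine and_congr (ev_iff M hα _ _ _ _ _ fun _ _ => rfl) ?_
    refine forall_congr' fun x => forall_congr' fun p => ?_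
    rw [Sat_imp]
    refine imp_congr (and_congr ?_ (and_congr ?_ (forall_congr' fun b => ?_))) ?_
    · refine ev_iff M 𝒜.isPi_free _ _ _ _ _ fun i hi => ?_
      rw [Set.mem_singleton_iff.mp hi, update_of_ne (by norm_num), update_self]; rfl
    · refine ev_iff M 𝒜.prf_free _ _ _ _ _ fun i hi => ?_
      rcases hi with rfl | hi
      · rw [update_self]; rfl
      · rw [Set.mem_singleton_iff.mp hi, update_of_ne (by norm_num), update_self]; rfl
    · rw [Sat_imp]
      refine imp_congr ?_ ?_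
      · refine ev_iff M 𝒜.axIn_free _ _ _ _ _ fun i hi => ?_
        rcases hi with rfl | hi
        · rw [update_self]; rfl
        · rw [Set.mem_singleton_iff.mp hi, update_of_ne (by norm_num), update_self]; rfl
      · refine ev_iff M hα _ _ _ _ _ fun i hi => ?_
        rw [Set.mem_singleton_iff.mp hi, update_self]; rfl
    · refine Sat_congr M θ _ _ _ _ (fun i hi => ?_) (fun _ _ => rfl)
      rw [Set.mem_singleton_iff.mp (hfree hi), update_of_ne (by norm_num), update_self]; rfl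
  constructor
  · intro h
    have h' := fun A hA => (hm A).mp (h A hA)
    obtain ⟨A₀, hA₀⟩ := M.sets_nonempty
    refine ⟨(h' A₀ hA₀).1, fun x hx p hp hb => ?_⟩
    rw [ht]
    exact fun A hA => (h' A hA).2 x p ⟨hx, hp, hb⟩
  · rintro ⟨h1, h2⟩ A hA
    refine (hm A).mpr ⟨h1, fun x p ⟨hx, hp, hb⟩ => ?_⟩
    have h3 := h2 x hx p hp hb
    rw [ht] at h3
    exact h3 A hA

/-- The general principle: a theory of true sentences whose set of Goedel numbers is
arithmetical, and which contains the sentence saying that all `Pi^1_1` sentences provable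
from no axioms are true, proves its own `Pi^1_1`-soundness for a `Pi^1_1` definition. -/
theorem main (𝒜 : Arithmetization) (T : Set Fm) (hT : ∀ φ ∈ T, φ.IsSentence)
    (hs : ∀ φ ∈ T, std.Holds φ) (h0 : 𝒜.reflection falsum ∈ T)
    (hdef : AD (fun w => ∃ φ ∈ T, φ.code = w 0)) :
    ∃ τ : Fm, Pi11Defines τ T ∧ Proves T (𝒜.reflection τ) := by
  obtain ⟨α, hα, hαf, hαd⟩ := ad_formula (P := fun n => ∃ φ ∈ T, φ.code = n) hdef
  obtain ⟨k, θ, ht, hθ⟩ := 𝒜.tr_pi
  have hθN : θ.fvN ⊆ {2} := by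
    have := 𝒜.tr_free.1
    rw [ht] at this
    exact this
  have hθS : θ.fvS \ {k} = ∅ := by
    have := 𝒜.tr_free.2
    rw [ht] at this
    exact this
  have hfree : (Fm.allS k (tauM 𝒜 α θ)).FreeIn {0} := by
    constructor
    · rintro i (hi | hi)
      · exact hαf.1 hi
      · exfalso
        obtain ⟨⟨hi, hi1⟩, hi2⟩ := hi
        rcases hi with (hi | hi | ⟨hi | hi, hi0⟩) | hi
        · exact hi2 (𝒜.isPi_free.1 hi)
        · rcases 𝒜.prf_free.1 hi with h | h
          · exact hi1 h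
          · exact hi2 h
        · rcases 𝒜.axIn_free.1 hi with h | h
          · exact hi0 h
          · exact hi1 h
        · exact hi0 (hαf.1 hi)
        · exact hi2 (hθN hi)
    · refine Set.eq_empty_of_forall_notMem fun i hi => ?_
      obtain ⟨hi, hik⟩ := hi
      rcases hi with hi | (hi | hi | hi | hi) | hi
      · rw [hαf.2] at hi; exact hi
      · rw [𝒜.isPi_free.2] at hi; exact hi
      · rw [𝒜.prf_free.2] at hi; exact hi
      · rw [𝒜.axIn_free.2] at hi; exact hi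
      · have hi : i ∈ α.fvS := hi
        rw [hαf.2] at hi; exact hi
      · have : i ∈ θ.fvS \ {k} := ⟨hi, hik⟩
        rw [hθS] at this; exact this
  have hαd' : ∀ n : ℕ, Ev std α n n n ↔ ∃ φ ∈ T, φ.code = n := fun n =>
    (ev_zero std hαf n n std.zero n std.zero).trans (hαd n)
  refine ⟨.allS k (tauM 𝒜 α θ), ⟨⟨k, _, rfl, ?_⟩, hfree, fun n => ?_⟩, ?_⟩
  · exact ⟨hα, ⟨𝒜.isPi_arith, 𝒜.prf_arith, 𝒜.axIn_arith, hα⟩, hθ⟩
  · have h1 := sat_tau std 𝒜 hαf ht n
    have h2 : SatN n 0 0 (.allS k (tauM 𝒜 α θ)) ↔ Ev std (.allS k (tauM 𝒜 α θ)) n n n :=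
      ev_zero std hfree n std.zero n std.zero n
    rw [h2, h1, hαd']
    refine and_iff_left ?_
    exact reflection_true 𝒜 hT hs (P := fun n => Ev std α n n n) fun n hn => (hαd' n).mp hn
  · intro M hM v V hV
    rw [sat_reflection M 𝒜 hfree]
    intro x hx p hp ha
    by_cases hax : ∃ a, Ev M 𝒜.axIn a p x
    · obtain ⟨a, hax⟩ := hax
      have h1 := (sat_tau M 𝒜 hαf ht a).mp (ha a hax)
      exact h1.2 x hx p hp fun b hb => ((sat_tau M 𝒜 hαf ht b).mp (ha b hb)).1
    · have h1 := hM _ h0 v V hV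
      rw [sat_reflection M 𝒜 falsum_free] at h1
      exact h1 x hx p hp fun a h => absurd ⟨a, h⟩ hax

theorem final (𝒜 : Arithmetization) :
    (∀ φ ∈ T0 ∪ {𝒜.reflection falsum}, φ.IsSentence) ∧
    (∀ φ ∈ T0 ∪ {𝒜.reflection falsum}, std.Holds φ) ∧
    ∃ τ : Fm, Pi11Defines τ (T0 ∪ {𝒜.reflection falsum}) ∧
      Proves (T0 ∪ {𝒜.reflection falsum}) (𝒜.reflection τ) := by
  have h1 : ∀ φ ∈ T0 ∪ {𝒜.reflection falsum}, φ.IsSentence := by
    rintro φ (h | rfl)
    · exact T0_sentence h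
    · exact reflection_sentence 𝒜 falsum_free
  have h2 : ∀ φ ∈ T0 ∪ {𝒜.reflection falsum}, std.Holds φ := by
    rintro φ (h | rfl)
    · exact T0_std h
    · intro v V _
      rw [sat_reflection std 𝒜 falsum_free]
      exact reflection_true 𝒜 (T := ∅) (fun _ h => h.elim) (fun _ h => h.elim)
        (P := fun n => Ev std falsum n n n) fun n hn => absurd hn (ev_falsum std n n n)
  refine ⟨h1, h2, main 𝒜 _ h1 h2 (Or.inr rfl) ?_⟩
  refine dc_ad.iff (fun w => ?_) (dc_ad.or (d_T0 dc_ad)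
    (dc_ad.eq (dc_ad.tvar 0) (tconst dc_ad (𝒜.reflection falsum).code)))
  constructor
  · rintro (⟨φ, h, h'⟩ | h)
    · exact ⟨φ, Or.inl h, h'⟩
    · exact ⟨_, Or.inr rfl, h.symm⟩
  · rintro ⟨φ, h | rfl, h'⟩
    · exact Or.inl ⟨φ, h, h'⟩
    · exact Or.inr h'.symm

end Pool.Agent.NH89.SAC
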